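import Pool.Agent.H97.HV.Targets4

/-!
# SD: the terms for the elements of `V_ κ` of the model HOD(V_ (min γ κ))
-/

open Ordinal Cardinal Order Set
open scoped ZFSet

universe u

namespace HD.HW.H35

open HD.PRK HD.HV Pool.Agent.H54.WM

theorem tsm {γ ξ : Ordinal.{u}} {a b f g : ZFSet.{u}} :
    tup [a, b] ∈ TS γ ξ (.mem 0 1) (sv [f, g]) ↔ tup [a, b] ∈ HW γ ξ ∧ ap f a ∈ ap g b := by
  rw [mem_TS]
  refine and_congr_right fun _ => ?_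
  show ap f (pr 0 (tup [a, b])) ∈ ap g (pr 1 (tup [a, b])) ↔ _
  rw [pr_tup, pr_tup]
  exact Iff.rfl

theorem tse {γ ξ : Ordinal.{u}} {a b f g : ZFSet.{u}} :
    tup [a, b] ∈ TS γ ξ (.eq 0 1) (sv [f, g]) ↔ tup [a, b] ∈ HW γ ξ ∧ ap f a = ap g b := by
  rw [mem_TS]
  refine and_congr_right fun _ => ?_
  show ap f (pr 0 (tup [a, b])) = ap g (pr 1 (tup [a, b])) ↔ _
  rw [pr_tup, pr_tup]
  exact Iff.rfl

theorem d0tup (i a b : ℕ) : D0.{u} fun v => tup [v a, v b] ∈ v i := by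
  refine (D0.exMem (R := fun p v => p = tup [v a, v b]) i (D0.tup2 0 (a + 1) (b + 1))).congr
    fun v => ?_
  constructor
  · exact fun h => ⟨_, h, rfl⟩
  · rintro ⟨p, h, rfl⟩
    exact h

theorem d0pair (i a b : ℕ) : D0.{u} fun v => ZFSet.pair (v a) (v b) ∈ v i := by
  refine (D0.exMem (R := fun p v => p = ZFSet.pair (v a) (v b)) i
    (D0.pair 0 (a + 1) (b + 1))).congr fun v => ?_
  constructor
  · exact fun h => ⟨_, h, rfl⟩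
  · rintro ⟨p, h, rfl⟩
    exact h

theorem wvTS (hTSH : HD.HW.T_TSH.{u}) {γ ξ : Ordinal.{u}} (hgx : IsSuccLimit (min γ ξ)) (φ : Fml)
    {f g : ZFSet.{u}} (hf : NV (min γ ξ) f) (hg : NV (min γ ξ) g) :
    WV γ ξ (TS γ ξ φ (sv [f, g])) := by
  refine ⟨hTSH γ ξ hgx φ _ fun n => ?_, fun x hx => HW_sub _ _ (mem_TS.1 hx).1⟩
  rcases n with _ | _ | n
  · exact hf
  · exact hg
  · exact nv_empty hgx

theorem wvEmpty {γ ξ : Ordinal.{u}} (hgx : IsSuccLimit (min γ ξ)) : WV γ ξ (∅ : ZFSet.{u}) :=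
  ⟨nv_empty hgx, fun _ h => absurd h (ZFSet.notMem_empty _)⟩

theorem wvSv {γ ξ : Ordinal.{u}} (hgx : IsSuccLimit (min γ ξ)) {x y : ZFSet.{u}}
    (hx : WV γ ξ x) (hy : WV γ ξ y) : ∀ n, WV γ ξ (sv [x, y] n) := by
  rintro (_ | _ | n)
  · exact hx
  · exact hy
  · exact wvEmpty hgx

theorem tupHW {γ ξ : Ordinal.{u}} (hgx : IsSuccLimit (min γ ξ)) (hξ : IsSuccLimit ξ)
    {a b : ZFSet.{u}} (ha : a ∈ HW γ ξ) (hb : b ∈ HW γ ξ) : tup [a, b] ∈ HW γ ξ :=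
  tup_mem_HW hgx hξ fun x hx => by
    simp only [List.mem_cons, List.not_mem_nil, or_false] at hx
    rcases hx with rfl | rfl
    · exact ha
    · exact hb

/-- the common part of (2) and (4) -/
theorem key (hTR : HD.HW.T_TR.{u}) (hTSH : HD.HW.T_TSH.{u}) {γ ξ κ : Ordinal.{u}}
    {j : ZFSet.{u} → ZFSet.{u}}
    (h : Bas γ ξ κ j) (s : Tm γ ξ κ) {d k : ZFSet.{u}} (hd : d ∈ HW γ κ)
    (hk : NV (min γ ξ) k)
    (hm : tup [s.b, d] ∈ j (TS γ ξ (.mem 0 1) (sv [s.f, k])))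
    (H : ∀ w ∈ HW γ ξ, ∀ w' ∈ HW γ ξ, ap s.f w ∈ ap k w' → ap s.f w ∈ HW γ ξ) :
    ∃ (c : ZFSet.{u}) (hc : c ∈ HW γ κ), MQ j s (idt h.gξ c hc) := by
  obtain ⟨hT, -, -⟩ := hTR γ ξ κ j h
  have hg := WV_gr (g := s.f) h.gξ h.lξ s.hf
  have h1 := (hT (fun w w' v => tup [w, w'] ∈ v 0 → ∃ p ∈ v 1, ∃ x y, p = ZFSet.pair x y ∧ x = w)
    ((d0tup 2 0 1).imp (D0.exMem (R := fun p v => ∃ x y, p = ZFSet.pair x y ∧ x = v 0) 3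
      (D0.exPair (R := fun x _ v => x = v 1) 0 (D0.eq 0 3))))
    (sv [TS γ ξ (.mem 0 1) (sv [s.f, k]), gr γ ξ s.f (HW γ ξ)])
    (wvSv h.gξ (wvTS hTSH h.gξ _ s.hf hk) hg)).1 (by
      intro w hw w' hw' h2
      have h3 := (tsm.1 h2).2
      exact ⟨ZFSet.pair w (ap s.f w), mem_gr.2 ⟨w, hw, rfl, H w hw w' hw' h3⟩, w, _, rfl, rfl⟩)
    s.b s.hb d hd hm
  obtain ⟨p, hp, x, c, rfl, rfl⟩ := h1
  have hp' : ZFSet.pair s.b c ∈ j (gr γ ξ s.f (HW γ ξ)) := hp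
  have hc : c ∈ HW γ κ := (of_pair_mem_HW h.lκ (mem_HW_of_WV (h.emb.map _ hg) hp')).2
  refine ⟨c, hc, ?_⟩
  exact (hT (fun w w' v => ZFSet.pair w w' ∈ v 0 → tup [w, w'] ∈ v 1)
    ((d0pair 2 0 1).imp (d0tup 3 0 1))
    (sv [gr γ ξ s.f (HW γ ξ), TS γ ξ (.eq 0 1) (sv [s.f, idf γ ξ])])
    (wvSv h.gξ hg (wvTS hTSH h.gξ _ s.hf (nv_idf h.gξ)))).1 (by
      intro w hw w' hw' h2
      obtain ⟨u, hu, h3, h4⟩ := mem_gr.1 h2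
      obtain ⟨rfl, h5⟩ := ZFSet.pair_inj.1 h3
      refine tse.2 ⟨tupHW h.gξ h.lξ hw hw', ?_⟩
      rw [ap_idf hw', h5])
    s.b s.hb c hc hp'

theorem pf_SD (hTR : HD.HW.T_TR.{u}) (hTSH : HD.HW.T_TSH.{u}) : HD.HW.T_SD.{u} := by
  intro γ ξ κ j h
  obtain ⟨hT, -, -⟩ := hTR γ ξ κ j h
  refine ⟨?_, ?_, ?_, ?_⟩
  · intro c d hc hd
    exact (hT (fun w w' v => tup [w, w'] ∈ v 0 ↔ w ∈ w')
      ((d0tup 2 0 1).iff (D0.mem 0 1))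
      (sv [TS γ ξ (.mem 0 1) (sv [idf γ ξ, idf γ ξ]), ∅])
      (wvSv h.gξ (wvTS hTSH h.gξ _ (nv_idf h.gξ) (nv_idf h.gξ)) (wvEmpty h.gξ))).1 (by
        intro w hw w' hw'
        show tup [w, w'] ∈ TS γ ξ (.mem 0 1) (sv [idf γ ξ, idf γ ξ]) ↔ _
        rw [tsm, ap_idf hw, ap_idf hw']
        exact ⟨fun h => h.2, fun h2 => ⟨tupHW h.gξ h.lξ hw hw', h2⟩⟩)
      c hc d hd
  · intro s d hd hm
    refine key hTR hTSH h s hd (nv_idf h.gξ) hm fun w hw w' hw' h1 => ?_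
    rw [ap_idf hw'] at h1
    exact HW_tra hw' h1
  · intro x hx c hc
    exact (hT (fun w w' v => tup [w, w'] ∈ v 0 ↔ w ∈ v 1)
      ((d0tup 2 0 1).iff (D0.mem 0 3))
      (sv [TS γ ξ (.mem 0 1) (sv [idf γ ξ, cst γ ξ x]), x])
      (wvSv h.gξ (wvTS hTSH h.gξ _ (nv_idf h.gξ) (nv_cst h.gξ hx.1)) hx)).1 (by
        intro w hw w' hw'
        show tup [w, w'] ∈ TS γ ξ (.mem 0 1) (sv [idf γ ξ, cst γ ξ x]) ↔ w ∈ x
        rw [tsm, ap_idf hw, ap_cst hw']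
        exact ⟨fun h => h.2, fun h2 => ⟨tupHW h.gξ h.lξ hw hw', h2⟩⟩)
      c hc ∅ (empty_mem_HW h.gκ h.lκ)
  · intro x hx s hm
    refine key hTR hTSH h s (empty_mem_HW h.gκ h.lκ) (nv_cst h.gξ hx.1) hm
      fun w hw w' hw' h1 => ?_
    rw [ap_cst hw'] at h1
    exact mem_HW_of_WV hx h1

end HD.HW.H35
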